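import Pool.Agent.W516.MTZ.Stm

/-!
# The structure of the group `M.gp`
-/

set_option autoImplicit false
set_option linter.unusedSectionVars false

namespace Pool.Agent.W516.MTZ

open Matrix

variable {m X : Type} [Fintype m] [DecidableEq m] [Fintype X] [DecidableEq X]

/-- A matrix which lowers the degree by at least `k`. -/
def Low (M : Motive m X) (k : ℕ) (A : Matrix m m ℂ) : Prop :=
  ∀ i j, A i j ≠ 0 → M.wt i + k ≤ M.wt j

theorem low_mul {M : Motive m X} {k l : ℕ} {A B : Matrix m m ℂ} (hA : Low M k A)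
    (hB : Low M l B) : Low M (k + l) (A * B) := by
  intro i j hij
  rw [Matrix.mul_apply] at hij
  obtain ⟨r, -, hr⟩ := Finset.exists_ne_zero_of_sum_ne_zero hij
  have h1 := hA i r (left_ne_zero_of_mul hr)
  have h2 := hB r j (right_ne_zero_of_mul hr)
  omega

theorem low_one {M : Motive m X} : Low M 0 (1 : Matrix m m ℂ) := by
  intro i j hij
  by_cases h : i = j
  · subst h; omega
  · exact absurd (Matrix.one_apply_ne h) hij

theorem low_zero {M : Motive m X} {k : ℕ} : Low M k (0 : Matrix m m ℂ) := by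
  intro i j hij
  exact absurd rfl hij

theorem low_add {M : Motive m X} {k : ℕ} {A B : Matrix m m ℂ} (hA : Low M k A)
    (hB : Low M k B) : Low M k (A + B) := by
  intro i j hij
  by_cases h : A i j = 0
  · by_cases h' : B i j = 0
    · exact absurd (by simp [h, h']) hij
    · exact hB i j h'
  · exact hA i j h

theorem low_neg {M : Motive m X} {k : ℕ} {A : Matrix m m ℂ} (hA : Low M k A) :
    Low M k (-A) := by
  intro i j hij
  exact hA i j (by simpa using hij)

theorem low_sub {M : Motive m X} {k : ℕ} {A B : Matrix m m ℂ} (hA : Low M k A)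
    (hB : Low M k B) : Low M k (A - B) := by
  rw [sub_eq_add_neg]
  exact low_add hA (low_neg hB)

theorem low_smul {M : Motive m X} {k : ℕ} {A : Matrix m m ℂ} (c : ℂ) (hA : Low M k A) :
    Low M k (c • A) := by
  intro i j hij
  refine hA i j fun h => hij ?_
  simp [h]

theorem low_qsmul {M : Motive m X} {k : ℕ} {A : Matrix m m ℂ} (c : ℚ) (hA : Low M k A) :
    Low M k (c • A) := by
  intro i j hij
  refine hA i j fun h => hij ?_
  simp [h]

theorem low_mono {M : Motive m X} {k l : ℕ} {A : Matrix m m ℂ} (hkl : k ≤ l)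
    (hA : Low M l A) : Low M k A := by
  intro i j hij
  have := hA i j hij
  omega

theorem low_sum {M : Motive m X} {k : ℕ} {ι : Type*} (s : Finset ι) (A : ι → Matrix m m ℂ)
    (hA : ∀ i ∈ s, Low M k (A i)) : Low M k (∑ i ∈ s, A i) := by
  classical
  induction s using Finset.induction_on with
  | empty => simpa using low_zero
  | insert a s ha ih =>
    rw [Finset.sum_insert ha]
    exact low_add (hA _ (Finset.mem_insert_self _ _))
      (ih fun i hi => hA i (Finset.mem_insert_of_mem hi))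

theorem low_pow {M : Motive m X} {k : ℕ} {A : Matrix m m ℂ} (hA : Low M k A) (n : ℕ) :
    Low M (n * k) (A ^ n) := by
  induction n with
  | zero => simpa using low_one
  | succ n ih =>
    rw [pow_succ, add_mul, one_mul]
    exact low_mul ih hA

/-- A bound for the degrees. -/
theorem exists_bound (M : Motive m X) : ∃ K : ℕ, ∀ A : Matrix m m ℂ, Low M K A → A = 0 := by
  refine ⟨(∑ i, M.wt i) + 1, fun A hA => ?_⟩
  ext i j
  by_contra h
  have h1 := hA i j h
  have h2 : M.wt j ≤ ∑ i, M.wt i := Finset.single_le_sum (f := M.wt) (fun _ _ => Nat.zero_le _)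
    (Finset.mem_univ j)
  omega

/-- The matrix of the action of a generator. -/
noncomputable def opc (M : Motive m X) (x : X) : Matrix m m ℂ := (M.op x).map (algebraMap ℚ ℂ)

theorem low_opc (M : Motive m X) (x : X) : Low M (M.deg x) (opc M x) := by
  intro i j hij
  have h : M.op x i j ≠ 0 := by
    intro h
    apply hij
    simp [opc, h]
  rw [M.op_deg x i j h]

theorem low_smul_opc (M : Motive m X) (c : ℂ) (x : X) : Low M 1 (c • opc M x) :=
  low_smul c (low_mono (M.deg_pos x) (low_opc M x))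

theorem exists_pow (M : Motive m X) : ∃ K : ℕ, ∀ A : Matrix m m ℂ, Low M 1 A → A ^ (K + 1) = 0 := by
  obtain ⟨K, hK⟩ := exists_bound M
  refine ⟨K, fun A hA => hK _ ?_⟩
  have := low_pow hA (K + 1)
  exact low_mono (by omega) this

theorem nilp {M : Motive m X} {A : Matrix m m ℂ} (hA : Low M 1 A) : IsNilpotent A := by
  obtain ⟨K, hK⟩ := exists_pow M
  exact ⟨K + 1, hK A hA⟩

theorem low_exp {M : Motive m X} {A : Matrix m m ℂ} (hA : Low M 1 A) :
    Low M 1 (IsNilpotent.exp A - 1) := by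
  obtain ⟨K, hK⟩ := exists_pow M
  rw [IsNilpotent.exp_eq_sum (hK A hA), Finset.sum_range_succ']
  simp only [pow_zero, Nat.factorial_zero, Nat.cast_one, inv_one, one_smul, add_sub_cancel_right]
  refine low_sum _ _ fun i _ => low_qsmul _ ?_
  exact low_mono (by omega) (low_pow hA (i + 1))

/-- The element `exp (c N)`, `N = op x`. -/
noncomputable def ex (M : Motive m X) (c : ℂ) (x : X) : (Matrix m m ℂ)ˣ where
  val := IsNilpotent.exp (c • opc M x)
  inv := IsNilpotent.exp (-(c • opc M x))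
  val_inv := IsNilpotent.exp_mul_exp_neg_self (nilp (low_smul_opc M c x))
  inv_val := IsNilpotent.exp_neg_mul_exp_self (nilp (low_smul_opc M c x))

theorem ex_val (M : Motive m X) (c : ℂ) (x : X) :
    (ex M c x : Matrix m m ℂ) = IsNilpotent.exp (c • opc M x) := rfl

theorem ex_add (M : Motive m X) (c d : ℂ) (x : X) : ex M (c + d) x = ex M c x * ex M d x := by
  apply Units.ext
  rw [Units.val_mul, ex_val, ex_val, ex_val, add_smul]
  exact IsNilpotent.exp_add_of_commute
    (((Commute.refl (opc M x)).smul_right d).smul_left c)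
    (nilp (low_smul_opc M c x)) (nilp (low_smul_opc M d x))

theorem ex_zero (M : Motive m X) (x : X) : ex M 0 x = 1 := by
  apply Units.ext
  rw [ex_val, zero_smul, IsNilpotent.exp_zero, Units.val_one]

/-- The element `μ ^ wt`. -/
noncomputable def dg (M : Motive m X) (μ : ℂˣ) : (Matrix m m ℂ)ˣ where
  val := diagonal fun i => (μ : ℂ) ^ M.wt i
  inv := diagonal fun i => ((μ⁻¹ : ℂˣ) : ℂ) ^ M.wt i
  val_inv := by
    rw [diagonal_mul_diagonal, ← diagonal_one]
    congr 1
    funext i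
    rw [← mul_pow, Units.mul_inv, one_pow]
  inv_val := by
    rw [diagonal_mul_diagonal, ← diagonal_one]
    congr 1
    funext i
    rw [← mul_pow, Units.inv_mul, one_pow]

theorem dg_val (M : Motive m X) (μ : ℂˣ) :
    (dg M μ : Matrix m m ℂ) = diagonal fun i => (μ : ℂ) ^ M.wt i := rfl

theorem dg_mul (M : Motive m X) (μ ν : ℂˣ) : dg M (μ * ν) = dg M μ * dg M ν := by
  apply Units.ext
  rw [Units.val_mul, dg_val, dg_val, dg_val, diagonal_mul_diagonal]
  congr 1
  funext i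
  rw [Units.val_mul, mul_pow]

theorem dg_one (M : Motive m X) : dg M 1 = 1 := by
  apply Units.ext
  rw [dg_val, Units.val_one, Units.val_one, ← diagonal_one]
  congr 1
  funext i
  rw [one_pow]

theorem dg_inv (M : Motive m X) (μ : ℂˣ) : dg M μ⁻¹ = (dg M μ)⁻¹ := by
  rw [eq_inv_iff_mul_eq_one, ← dg_mul, inv_mul_cancel, dg_one]

theorem semiconj_exp {M : Motive m X} {A B D : Matrix m m ℂ} (hA : Low M 1 A) (hB : Low M 1 B)
    (h : D * A = B * D) : D * IsNilpotent.exp A = IsNilpotent.exp B * D := by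
  obtain ⟨K, hK⟩ := exists_pow M
  rw [IsNilpotent.exp_eq_sum (hK A hA), IsNilpotent.exp_eq_sum (hK B hB), Finset.mul_sum,
    Finset.sum_mul]
  refine Finset.sum_congr rfl fun i _ => ?_
  have h1 : SemiconjBy D A B := h
  have h2 := (h1.pow_right i).eq
  rw [mul_smul_comm, smul_mul_assoc, h2]

theorem dg_opc (M : Motive m X) (μ : ℂˣ) (c : ℂ) (x : X) :
    (dg M μ : Matrix m m ℂ) * (((μ : ℂ) ^ M.deg x * c) • opc M x) =
      (c • opc M x) * (dg M μ : Matrix m m ℂ) := by
  ext i j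
  rw [dg_val, diagonal_mul, mul_diagonal, Matrix.smul_apply, Matrix.smul_apply, smul_eq_mul,
    smul_eq_mul]
  by_cases h : opc M x i j = 0
  · simp [h]
  · have h' : M.op x i j ≠ 0 := by
      intro h'
      apply h
      simp [opc, h']
    rw [M.op_deg x i j h', pow_add]
    ring

theorem dg_ex (M : Motive m X) (μ : ℂˣ) (c : ℂ) (x : X) :
    (dg M μ)⁻¹ * ex M c x * dg M μ = ex M ((μ : ℂ) ^ M.deg x * c) x := by
  rw [mul_assoc, inv_mul_eq_iff_eq_mul]
  apply Units.ext
  rw [Units.val_mul, Units.val_mul, ex_val, ex_val]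
  exact (semiconj_exp (low_smul_opc M _ x) (low_smul_opc M c x) (dg_opc M μ c x)).symm

/-- The unipotent part of the motivic Galois group. -/
noncomputable def U0 (M : Motive m X) : Subgroup (Matrix m m ℂ)ˣ :=
  Subgroup.closure {g | ∃ (c : ℂ) (x : X), g = ex M c x}

theorem ex_mem (M : Motive m X) (c : ℂ) (x : X) : ex M c x ∈ U0 M :=
  Subgroup.subset_closure ⟨c, x, rfl⟩

theorem U0_le (M : Motive m X) : U0 M ≤ M.gp := by
  rw [U0, Subgroup.closure_le]
  rintro g ⟨c, x, rfl⟩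
  exact Subgroup.subset_closure (Or.inr ⟨c, x, rfl⟩)

theorem dg_mem (M : Motive m X) (μ : ℂˣ) : dg M μ ∈ M.gp :=
  Subgroup.subset_closure (Or.inl ⟨μ, μ.ne_zero, rfl⟩)

theorem U0_conj (M : Motive m X) (μ : ℂˣ) {u : (Matrix m m ℂ)ˣ} (hu : u ∈ U0 M) :
    (dg M μ)⁻¹ * u * dg M μ ∈ U0 M := by
  have h : U0 M ≤ (U0 M).comap (MulAut.conj (dg M μ)⁻¹).toMonoidHom := by
    conv_lhs => rw [U0]
    rw [Subgroup.closure_le]
    rintro g ⟨c, x, rfl⟩
    change (dg M μ)⁻¹ * ex M c x * ((dg M μ)⁻¹)⁻¹ ∈ U0 M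
    rw [inv_inv, dg_ex]
    exact ex_mem M _ x
  have := h hu
  change (dg M μ)⁻¹ * u * ((dg M μ)⁻¹)⁻¹ ∈ U0 M at this
  rwa [inv_inv] at this

theorem gp_decomp (M : Motive m X) {g : (Matrix m m ℂ)ˣ} (hg : g ∈ M.gp) :
    ∃ (μ : ℂˣ), ∃ u ∈ U0 M, g = dg M μ * u := by
  induction hg using Subgroup.closure_induction with
  | mem g hg =>
    rcases hg with ⟨μ, hμ, hg⟩ | ⟨c, x, hg⟩
    · refine ⟨Units.mk0 μ hμ, 1, Subgroup.one_mem _, ?_⟩
      rw [mul_one]
      apply Units.ext
      rw [hg, dg_val, Units.val_mk0]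
    · refine ⟨1, ex M c x, ex_mem M c x, ?_⟩
      rw [dg_one, one_mul]
      apply Units.ext
      rw [hg, ex_val, opc]
  | one => exact ⟨1, 1, Subgroup.one_mem _, by rw [dg_one, one_mul]⟩
  | mul g h _ _ ihg ihh =>
    obtain ⟨μ, u, hu, rfl⟩ := ihg
    obtain ⟨ν, v, hv, rfl⟩ := ihh
    refine ⟨μ * ν, (dg M ν)⁻¹ * u * dg M ν * v, Subgroup.mul_mem _ (U0_conj M ν hu) hv, ?_⟩
    rw [dg_mul]
    group
  | inv g _ ih =>
    obtain ⟨μ, u, hu, rfl⟩ := ih
    refine ⟨μ⁻¹, (dg M μ⁻¹)⁻¹ * u⁻¹ * dg M μ⁻¹, U0_conj M μ⁻¹ (Subgroup.inv_mem _ hu), ?_⟩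
    rw [dg_inv]
    group

/-- The subgroup of the elements which are congruent to one modulo the matrices which lower the
degree by at least `k`. -/
theorem low_mul_sub {M : Motive m X} {k : ℕ} {A B : Matrix m m ℂ} (hA : Low M k (A - 1))
    (hB : Low M k (B - 1)) : Low M k (A * B - 1) := by
  have h : A * B - 1 = (A - 1) * (B - 1) + (A - 1) + (B - 1) := by noncomm_ring
  rw [h]
  exact low_add (low_add (low_mono (by omega) (low_mul hA hB)) hA) hB

theorem U0_low (M : Motive m X) {u : (Matrix m m ℂ)ˣ} (hu : u ∈ U0 M) :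
    Low M 1 ((u : Matrix m m ℂ) - 1) ∧ Low M 1 (((u⁻¹ : (Matrix m m ℂ)ˣ) : Matrix m m ℂ) - 1) := by
  induction hu using Subgroup.closure_induction with
  | mem g hg =>
    obtain ⟨c, x, rfl⟩ := hg
    refine ⟨low_exp (low_smul_opc M c x), ?_⟩
    change Low M 1 (IsNilpotent.exp (-(c • opc M x)) - 1)
    exact low_exp (low_neg (low_smul_opc M c x))
  | one =>
    rw [inv_one, Units.val_one, sub_self]
    exact ⟨low_zero, low_zero⟩
  | mul g h _ _ ihg ihh =>
    rw [_root_.mul_inv_rev, Units.val_mul, Units.val_mul]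
    exact ⟨low_mul_sub ihg.1 ihh.1, low_mul_sub ihh.2 ihg.2⟩
  | inv g _ ih =>
    rw [inv_inv]
    exact ⟨ih.2, ih.1⟩

theorem low_of_sub {M : Motive m X} {A : Matrix m m ℂ} (hA : Low M 1 (A - 1)) : Low M 0 A := by
  have h : A = (A - 1) + 1 := by abel
  rw [h]
  exact low_add (low_mono (by omega) hA) low_one

/-- The filtration of the unipotent part. -/
noncomputable def Fil (M : Motive m X) (k : ℕ) : Subgroup (U0 M) where
  carrier := {u | Low M k (((u : (Matrix m m ℂ)ˣ) : Matrix m m ℂ) - 1)}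
  one_mem' := by
    change Low M k _
    rw [OneMemClass.coe_one, Units.val_one, sub_self]
    exact low_zero
  mul_mem' := by
    intro a b ha hb
    change Low M k _
    rw [MulMemClass.coe_mul, Units.val_mul]
    exact low_mul_sub ha hb
  inv_mem' := by
    intro a ha
    change Low M k _
    have h1 : (((a⁻¹ : U0 M) : (Matrix m m ℂ)ˣ) : Matrix m m ℂ) - 1 =
        -(((a⁻¹ : U0 M) : (Matrix m m ℂ)ˣ) : Matrix m m ℂ) *
          (((a : (Matrix m m ℂ)ˣ) : Matrix m m ℂ) - 1) := by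
      rw [InvMemClass.coe_inv, mul_sub, mul_one, neg_mul, Units.inv_mul]
      abel
    rw [h1]
    have h2 := low_of_sub (U0_low M (a⁻¹).2).1
    exact low_mono (by omega) (low_mul (low_neg h2) ha)

theorem mem_Fil {M : Motive m X} {k : ℕ} {u : U0 M} :
    u ∈ Fil M k ↔ Low M k (((u : (Matrix m m ℂ)ˣ) : Matrix m m ℂ) - 1) := Iff.rfl

theorem Fil_comm (M : Motive m X) (k : ℕ) (a b : U0 M) (hb : b ∈ Fil M k) :
    a * b * a⁻¹ * b⁻¹ ∈ Fil M (k + 1) := by
  rw [mem_Fil] at hb ⊢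
  have ha := (U0_low M a.2).1
  have ha' := low_of_sub (U0_low M (a⁻¹).2).1
  have hb' := low_of_sub (U0_low M (b⁻¹).2).1
  have h : (((a * b * a⁻¹ * b⁻¹ : U0 M) : (Matrix m m ℂ)ˣ) : Matrix m m ℂ) - 1 =
      ((((a : (Matrix m m ℂ)ˣ) : Matrix m m ℂ) - 1) *
        (((b : (Matrix m m ℂ)ˣ) : Matrix m m ℂ) - 1) -
        (((b : (Matrix m m ℂ)ˣ) : Matrix m m ℂ) - 1) *
        (((a : (Matrix m m ℂ)ˣ) : Matrix m m ℂ) - 1)) *
        (((a⁻¹ : U0 M) : (Matrix m m ℂ)ˣ) : Matrix m m ℂ) *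
        (((b⁻¹ : U0 M) : (Matrix m m ℂ)ˣ) : Matrix m m ℂ) := by
    have h1 : ((((a : (Matrix m m ℂ)ˣ) : Matrix m m ℂ) - 1) *
        (((b : (Matrix m m ℂ)ˣ) : Matrix m m ℂ) - 1) -
        (((b : (Matrix m m ℂ)ˣ) : Matrix m m ℂ) - 1) *
        (((a : (Matrix m m ℂ)ˣ) : Matrix m m ℂ) - 1)) =
        ((a : (Matrix m m ℂ)ˣ) : Matrix m m ℂ) * ((b : (Matrix m m ℂ)ˣ) : Matrix m m ℂ) -
        ((b : (Matrix m m ℂ)ˣ) : Matrix m m ℂ) * ((a : (Matrix m m ℂ)ˣ) : Matrix m m ℂ) := by
      noncomm_ring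
    rw [h1]
    simp only [MulMemClass.coe_mul, InvMemClass.coe_inv, Units.val_mul]
    rw [sub_mul, sub_mul]
    congr 1
    rw [mul_assoc ((b : (Matrix m m ℂ)ˣ) : Matrix m m ℂ), Units.mul_inv, mul_one, Units.mul_inv]
  rw [h]
  have h2 := low_mul (low_mul (low_sub (low_mul ha hb)
    (low_mono (by omega) (low_mul hb ha))) ha') hb'
  exact low_mono (by omega) h2

theorem Fil_normal (M : Motive m X) (k : ℕ) : (Fil M k).Normal := by
  refine ⟨fun n hn g => ?_⟩
  have h1 := Fil_comm M k g n hn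
  have h2 : g * n * g⁻¹ * n⁻¹ ∈ Fil M k := by
    rw [mem_Fil] at h1 ⊢
    exact low_mono (by omega) h1
  have h3 := Subgroup.mul_mem _ h2 hn
  simpa using h3

theorem Fil_zero (M : Motive m X) : Fil M 0 = ⊤ := by
  rw [eq_top_iff]
  intro u _
  rw [mem_Fil]
  exact low_mono (by omega) (U0_low M u.2).1

theorem Fil_bot (M : Motive m X) : ∃ k, Fil M k = ⊥ := by
  obtain ⟨K, hK⟩ := exists_bound M
  refine ⟨K, ?_⟩
  rw [eq_bot_iff]
  intro u hu
  rw [mem_Fil] at hu
  have h := sub_eq_zero.1 (hK _ hu)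
  rw [Subgroup.mem_bot]
  apply Subtype.ext
  exact Units.ext h

end Pool.Agent.W516.MTZ
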