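import Pool.Agent.W516.MTZ.Defs

/-!
# Statements of the parts of project MTZ
-/

set_option autoImplicit false

namespace Pool.Agent.W516.MTZ

open Matrix MvPolynomial

/-- MTZ-NIL. Proof: show `∀ k g, ∃ h ∈ H, h⁻¹ * g ∈ F k` by induction on `k`; see the spec. -/
def StNil : Prop :=
  ∀ (N : Type) [Group N] (F : ℕ → Subgroup N), (∀ k, (F k).Normal) → F 0 = ⊤ →
    (∀ k, ∀ a : N, ∀ b ∈ F k, a * b * a⁻¹ * b⁻¹ ∈ F (k + 1)) → (∃ k, F k = ⊥) →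
    ∀ H : Subgroup N, (∀ g : N, ∃ h ∈ H, h⁻¹ * g ∈ commutator N) → H = ⊤

/-- MTZ-WT. -/
def StWt : Prop :=
  ∀ (X : Type) [Fintype X] (d : X → ℕ), (∀ x, 0 < d x) → ∀ V : AddSubgroup (X → ℂ),
    (∀ μ : ℂ, μ ≠ 0 → ∀ v ∈ V, (fun x => μ ^ d x * v x) ∈ V) →
    ∀ v ∈ V, ∀ (n : ℕ) (c : ℂ), (fun x => if d x = n then c * v x else 0) ∈ V

/-- MTZ-CL. -/
def StCl : Prop :=
  ∀ (m : Type) [Fintype m] [DecidableEq m] (G : Subgroup (Matrix m m ℂ)ˣ),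
    (∀ (σ : ℂ ≃+* ℂ), ∀ g ∈ G, ∀ g' : (Matrix m m ℂ)ˣ,
      (g' : Matrix m m ℂ) = (g : Matrix m m ℂ).map σ → g' ∈ G) →
    ∃ G' : Subgroup (Matrix m m ℂ)ˣ, (G' : Set (Matrix m m ℂ)ˣ) =
      {u : (Matrix m m ℂ)ˣ | ∀ f : MvPolynomial (m × m) ℚ, (∀ g ∈ G, aeval (crd (g : Matrix m m ℂ)) f = 0) →
        aeval (crd (u : Matrix m m ℂ)) f = 0}

/-- MTZ-ZETA. -/
def StZeta : Prop :=
  ∀ (m X : Type) [Fintype m] [DecidableEq m] [Fintype X] [DecidableEq X] (M : Motive m X)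
    (p : Matrix m m ℂ), (∀ x, Odd (M.deg x) ∧ 3 ≤ M.deg x) → Function.Injective M.deg →
    p M.t M.t = 2 * Real.pi * Complex.I → (∀ x, p M.o (M.s x) = riemannZeta (M.deg x)) →
    Transcendental ℚ (p M.t M.t) ∧
    (Independent M p ↔ ∀ (x : X) (q : ℚ), riemannZeta (M.deg x) ≠ q)

/-- MTZ-AUT. -/
def StAut : Prop :=
  ∀ a b : ℂ, Transcendental ℚ a → Transcendental ℚ b → ∃ σ : ℂ ≃+* ℂ, σ a = b

/-- MTZ-MU. -/
def StMu : Prop :=
  ∀ (a : ℂ), Transcendental ℚ a → ∀ S : Subgroup ℂˣ,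
    (∀ (σ : ℂ ≃+* ℂ) (u : ℂˣ), (u : ℂ) = σ a / a → u ∈ S) → S = ⊤

/-- The matrices which respect the submotives of `M` spanned by `t` and by `o` and `s x`. -/
structure Fits {m X : Type} [Fintype m] [DecidableEq m] [DecidableEq X]
    (M : Motive m X) (g : Matrix m m ℂ) : Prop where
  co : ∀ i, g i M.o = if i = M.o then 1 else 0
  ct : ∀ i, g i M.t = if i = M.t then g M.t M.t else 0
  cs : ∀ x i, g i (M.s x) =
    if i = M.s x then g M.t M.t ^ M.deg x else if i = M.o then g M.o (M.s x) else 0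

/-- MTZ-FIT. -/
def StFit : Prop :=
  ∀ (m X : Type) [Fintype m] [DecidableEq m] [Fintype X] [DecidableEq X] (M : Motive m X),
    (∀ g ∈ M.gp, Fits M (g : Matrix m m ℂ)) ∧
    (∀ g h : Matrix m m ℂ, Fits M g → Fits M h → Fits M (g * h) ∧
      (g * h) M.t M.t = g M.t M.t * h M.t M.t ∧
      ∀ x, (g * h) M.o (M.s x) = h M.t M.t ^ M.deg x * g M.o (M.s x) + h M.o (M.s x)) ∧
    (∀ g : (Matrix m m ℂ)ˣ, Fits M (g : Matrix m m ℂ) →
      Fits M ((g⁻¹ : (Matrix m m ℂ)ˣ) : Matrix m m ℂ)) ∧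
    (∀ (c : ℂ) (x y : X), IsNilpotent.exp (c • (M.op x).map (algebraMap ℚ ℂ)) M.o (M.s y) =
      if x = y then c else 0) ∧
    (∀ (c : ℂ) (x : X), IsNilpotent.exp (c • (M.op x).map (algebraMap ℚ ℂ)) M.t M.t = 1)

/-- MTZ-TOR (assuming `StFit`). -/
def StTor : Prop :=
  ∀ (m X : Type) [Fintype m] [DecidableEq m] [Fintype X] [DecidableEq X] (M : Motive m X)
    (p : (Matrix m m ℂ)ˣ), p ∈ M.gp → NoSubtorsor M p → Independent M (p : Matrix m m ℂ)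

/-- MTZ-PC (assuming `StFit`). -/
def StPC : Prop :=
  ∀ (m X : Type) [Fintype m] [DecidableEq m] [Fintype X] [DecidableEq X] (M : Motive m X)
    (p : (Matrix m m ℂ)ˣ), p ∈ M.gp → PeriodConjecture M p → Independent M (p : Matrix m m ℂ)

end Pool.Agent.W516.MTZ
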