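import Pool.Agent.W516.MTZ.Core
import Pool.Agent.W410.MTZ.CL
import Pool.Agent.W67.MTZ.ZETA
import Pool.Agent.W822.MTZ.PC

/-!
# Torsors over `ℚ` through the comparison isomorphism of mixed Tate motives
-/

set_option autoImplicit false

namespace Pool.Agent.W516.MTZ

open Matrix MvPolynomial

variable {m X : Type} [Fintype m] [DecidableEq m] [Fintype X] [DecidableEq X]

theorem torsor_of_pc {M : Motive m X} {p : (Matrix m m ℂ)ˣ} (hp : p ∈ M.gp)
    (h : PeriodConjecture M p) : IsTorsor (clos p) := by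
  obtain ⟨G', hG'⟩ := W410.MTZ.T_CL m M.gp fun σ g hg g' hg' => by
    have h1 : g' = sg σ g := Units.ext hg'
    rw [h1]
    exact sg_mem M σ hg
  refine ⟨⟨{f | aeval (crd (p : Matrix m m ℂ)) f = 0}, rfl⟩, G', 1, ?_⟩
  ext u
  rw [inv_one]
  change u ∈ clos p ↔ 1 * u ∈ (G' : Set (Matrix m m ℂ)ˣ)
  rw [one_mul, hG']
  constructor
  · intro hu f hf
    exact hu f (hf p hp)
  · intro hu f hf
    exact hu f fun g hg => h hg f hf

theorem mem_clos (p : (Matrix m m ℂ)ˣ) : p ∈ clos p := fun _ hf => hf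

theorem main (hTor : StTor) {M : Motive m X} {p : (Matrix m m ℂ)ˣ} (hp : p ∈ M.gp)
    (htr : Transcendental ℚ ((p : Matrix m m ℂ) M.t M.t)) :
    (NoSubtorsor M p ↔ Independent M (p : Matrix m m ℂ)) ∧
    (PeriodConjecture M p ↔ IsTorsor (clos p) ∧ Independent M (p : Matrix m m ℂ)) := by
  refine ⟨⟨fun h => hTor m X M p hp h, fun h => noSub hp htr h⟩, fun h => ?_, fun h => ?_⟩
  · exact ⟨torsor_of_pc hp h, Pool.Agent.W822.MTZ.PC.T_PC Pool.Agent.W804.MTZ.T_FIT m X M p hp h⟩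
  · exact noSub hp htr h.2 _ h.1 (mem_clos p)

theorem main_zeta (hTor : StTor) {M : Motive m X} {p : (Matrix m m ℂ)ˣ} (hp : p ∈ M.gp)
    (hodd : ∀ x, Odd (M.deg x) ∧ 3 ≤ M.deg x) (hinj : Function.Injective M.deg)
    (hpi : (p : Matrix m m ℂ) M.t M.t = 2 * Real.pi * Complex.I)
    (hz : ∀ x, (p : Matrix m m ℂ) M.o (M.s x) = riemannZeta (M.deg x)) :
    (NoSubtorsor M p ↔ ∀ (x : X) (q : ℚ), riemannZeta (M.deg x) ≠ q) ∧
    (PeriodConjecture M p ↔ IsTorsor (clos p) ∧ ∀ (x : X) (q : ℚ), riemannZeta (M.deg x) ≠ q) := by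
  obtain ⟨h1, h2⟩ := Pool.Agent.W67.MTZ.T_ZETA m X M (p : Matrix m m ℂ) hodd hinj hpi hz
  rw [← h2]
  exact main hTor hp h1

end Pool.Agent.W516.MTZ
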