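import Pool.Agent.W516.MTZ.Grp
import Pool.Agent.W437.HD.Fixed
import Pool.Agent.W253.MTZ.NIL
import Pool.Agent.W160.MTZ.WT
import Pool.Agent.W756.MTZ.MU
import Pool.Agent.W346.MTZ.AUT

/-!
# The subgroups of the motivic Galois group which contain the elements `p⁻¹ σ(p)`
-/

set_option autoImplicit false
set_option linter.unusedSectionVars false

namespace Pool.Agent.W516.MTZ

open Matrix MvPolynomial

variable {m X : Type} [Fintype m] [DecidableEq m] [Fintype X] [DecidableEq X]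

/-- The vectors of the elements of a subgroup with `g t t = 1`. -/
def Vec (M : Motive m X) (H : Subgroup (Matrix m m ℂ)ˣ) (hH : H ≤ M.gp) :
    AddSubgroup (X → ℂ) where
  carrier := {v | ∃ h ∈ H, (h : Matrix m m ℂ) M.t M.t = 1 ∧
    ∀ x, (h : Matrix m m ℂ) M.o (M.s x) = v x}
  zero_mem' := ⟨1, H.one_mem, one_tt M, fun x => one_os M x⟩
  add_mem' := by
    rintro v w ⟨g, hg, hg1, hg2⟩ ⟨h, hh, hh1, hh2⟩
    refine ⟨g * h, H.mul_mem hg hh, ?_, fun x => ?_⟩
    · rw [mul_tt (hH hg) (hH hh), hg1, hh1, one_mul]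
    · rw [mul_os (hH hg) (hH hh), hh1, one_pow, one_mul, hg2, hh2]
      rfl
  neg_mem' := by
    rintro v ⟨g, hg, hg1, hg2⟩
    refine ⟨g⁻¹, H.inv_mem hg, ?_, fun x => ?_⟩
    · rw [tt_inv (hH hg), hg1, inv_one]
    · have h2 := mul_os (M := M) (hH (H.inv_mem hg)) (hH hg) x
      rw [inv_mul_cancel, Units.val_one, one_os, hg1, one_pow, one_mul, hg2] at h2
      rw [Pi.neg_apply]
      linear_combination -h2

/-- The image of a subgroup in the multiplicative group. -/
def Img (M : Motive m X) (H : Subgroup (Matrix m m ℂ)ˣ) (hH : H ≤ M.gp) : Subgroup ℂˣ where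
  carrier := {u | ∃ h ∈ H, (h : Matrix m m ℂ) M.t M.t = u}
  one_mem' := ⟨1, H.one_mem, one_tt M⟩
  mul_mem' := by
    rintro a b ⟨g, hg, hg1⟩ ⟨h, hh, hh1⟩
    exact ⟨g * h, H.mul_mem hg hh, by rw [mul_tt (hH hg) (hH hh), hg1, hh1, Units.val_mul]⟩
  inv_mem' := by
    rintro a ⟨g, hg, hg1⟩
    exact ⟨g⁻¹, H.inv_mem hg, by rw [tt_inv (hH hg), hg1, Units.val_inv_eq_inv_val]⟩

/-- A subgroup with full image and all vectors is everything. -/
theorem gp_le {M : Motive m X} {H : Subgroup (Matrix m m ℂ)ˣ} (hH : H ≤ M.gp)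
    (h1 : Img M H hH = ⊤) (h2 : Vec M H hH = ⊤) : M.gp ≤ H := by
  have hU : U0 M ≤ H := by
    have h3 : H.subgroupOf (U0 M) = ⊤ := by
      refine Pool.Agent.W253.MTZ.T_NIL (U0 M) (Fil M) (Fil_normal M) (Fil_zero M)
        (fun k a b hb => Fil_comm M k a b hb) (Fil_bot M) (H.subgroupOf (U0 M)) fun g => ?_
      have h4 : (fun x => ((g : (Matrix m m ℂ)ˣ) : Matrix m m ℂ) M.o (M.s x)) ∈ Vec M H hH := by
        rw [h2]
        trivial
      obtain ⟨h, hh, hh1, hh2⟩ := h4
      have h5 : h ∈ U0 M := mem_U0 (hH hh) hh1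
      refine ⟨⟨h, h5⟩, hh, mem_commutator M _ fun x => ?_⟩
      have h6 := mul_os (M := M) (Subgroup.inv_mem _ (hH hh)) (U0_le M g.2) x
      have h7 := mul_os (M := M) (Subgroup.inv_mem _ (hH hh)) (hH hh) x
      rw [inv_mul_cancel, Units.val_one, one_os, hh1, one_pow, one_mul, hh2] at h7
      rw [U0_tt g.2, one_pow, one_mul] at h6
      change ((h⁻¹ * (g : (Matrix m m ℂ)ˣ) : (Matrix m m ℂ)ˣ) : Matrix m m ℂ) M.o (M.s x) = 0
      rw [h6, ← h7]
    intro u hu
    have h4 : (⟨u, hu⟩ : U0 M) ∈ H.subgroupOf (U0 M) := by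
      rw [h3]
      trivial
    exact h4
  intro g hg
  have h3 : Units.mk0 ((g : Matrix m m ℂ) M.t M.t) (tt_ne hg) ∈ Img M H hH := by
    rw [h1]
    trivial
  obtain ⟨h, hh, hh1⟩ := h3
  rw [Units.val_mk0] at hh1
  have h4 : h⁻¹ * g ∈ U0 M := by
    refine mem_U0 (Subgroup.mul_mem _ (Subgroup.inv_mem _ (hH hh)) hg) ?_
    rw [mul_tt (Subgroup.inv_mem _ (hH hh)) hg, tt_inv (hH hh), hh1,
      inv_mul_cancel₀ (tt_ne hg)]
  have h5 := H.mul_mem hh (hU h4)
  rwa [mul_inv_cancel_left] at h5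

theorem trans_aux {l : ℂ} (hl : Transcendental ℚ l) {n : ℕ} (hn : 0 < n) {a b : ℚ}
    (h : (a : ℂ) + b * l ^ n = 0) : a = 0 ∧ b = 0 := by
  have hb : b = 0 := by
    by_contra hb
    have h1 := hl.pow hn
    apply h1
    have hb' : (b : ℂ) ≠ 0 := by exact_mod_cast hb
    have h2 : l ^ n = algebraMap ℚ ℂ (-a / b) := by
      rw [eq_ratCast, Rat.cast_div, Rat.cast_neg, eq_div_iff hb']
      linear_combination h
    rw [h2]
    exact isAlgebraic_algebraMap _
  refine ⟨?_, hb⟩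
  rw [hb, Rat.cast_zero, zero_mul, add_zero] at h
  exact_mod_cast h

section

variable {M : Motive m X} {H : Subgroup (Matrix m m ℂ)ˣ} (hH : H ≤ M.gp) {p : (Matrix m m ℂ)ˣ}
  (hp : p ∈ M.gp) (hσ : ∀ σ : ℂ ≃+* ℂ, p⁻¹ * sg σ p ∈ H)

include hp hH hσ

theorem hs_tt (σ : ℂ ≃+* ℂ) : ((p⁻¹ * sg σ p : (Matrix m m ℂ)ˣ) : Matrix m m ℂ) M.t M.t =
    σ ((p : Matrix m m ℂ) M.t M.t) / (p : Matrix m m ℂ) M.t M.t := by
  rw [mul_tt (Subgroup.inv_mem _ hp) (sg_mem M σ hp), tt_inv hp, sg_apply, div_eq_inv_mul]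

theorem hs_os (σ : ℂ ≃+* ℂ) (x : X) :
    ((p⁻¹ * sg σ p : (Matrix m m ℂ)ˣ) : Matrix m m ℂ) M.o (M.s x) =
    σ ((p : Matrix m m ℂ) M.o (M.s x)) -
      (σ ((p : Matrix m m ℂ) M.t M.t) / (p : Matrix m m ℂ) M.t M.t) ^ M.deg x *
        (p : Matrix m m ℂ) M.o (M.s x) := by
  have h := mul_os (M := M) hp (hH (hσ σ)) x
  rw [mul_inv_cancel_left, sg_apply, hs_tt hH hp hσ] at h
  rw [h]
  ring

theorem img_top (htr : Transcendental ℚ ((p : Matrix m m ℂ) M.t M.t)) : Img M H hH = ⊤ :=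
  Pool.Agent.W756.MTZ.T_MU Pool.Agent.W346.MTZ.T_AUT _ htr _ fun σ u hu =>
    ⟨p⁻¹ * sg σ p, hσ σ, by rw [hs_tt hH hp hσ, hu]⟩

theorem vec_top (htr : Transcendental ℚ ((p : Matrix m m ℂ) M.t M.t))
    (hind : Independent M (p : Matrix m m ℂ)) : Vec M H hH = ⊤ := by
  have himg := img_top hH hp hσ htr
  set V := Vec M H hH with hV
  -- stability under the torus
  have hstab : ∀ μ : ℂ, μ ≠ 0 → ∀ v ∈ V, (fun x => μ ^ M.deg x * v x) ∈ V := by
    rintro μ hμ v ⟨h, hh, hh1, hh2⟩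
    have h3 : Units.mk0 μ hμ ∈ Img M H hH := by
      rw [himg]
      trivial
    obtain ⟨k, hk, hk1⟩ := h3
    rw [Units.val_mk0] at hk1
    have hkh : h * k ∈ M.gp := Subgroup.mul_mem _ (hH hh) (hH hk)
    have hki : k⁻¹ ∈ M.gp := Subgroup.inv_mem _ (hH hk)
    refine ⟨k⁻¹ * (h * k), H.mul_mem (H.inv_mem hk) (H.mul_mem hh hk), ?_, fun x => ?_⟩
    · rw [mul_tt hki hkh, mul_tt (hH hh) (hH hk), tt_inv (hH hk), hh1, hk1, one_mul,
        inv_mul_cancel₀ hμ]
    · have h7 := mul_os (M := M) hki (hH hk) x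
      rw [inv_mul_cancel, Units.val_one, one_os, hk1] at h7
      rw [mul_os hki hkh, mul_tt (hH hh) (hH hk), mul_os (hH hh) (hH hk), hh1, hk1, one_mul, hh2]
      linear_combination -h7
  have hwt := Pool.Agent.W160.MTZ.T_WT X M.deg M.deg_pos V hstab
  -- the graded pieces
  let W : ℕ → Submodule ℂ (X → ℂ) := fun n =>
    { carrier := {v | (fun x => if M.deg x = n then v x else 0) ∈ V}
      zero_mem' := by
        have h : (fun x : X => if M.deg x = n then (0 : X → ℂ) x else 0) = 0 := by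
          funext x
          simp
        rw [Set.mem_ofPred_eq, h]
        exact V.zero_mem
      add_mem' := by
        intro v w hv hw
        have h : (fun x : X => if M.deg x = n then (v + w) x else 0) =
            (fun x => if M.deg x = n then v x else 0) +
              fun x => if M.deg x = n then w x else 0 := by
          funext x
          by_cases hx : M.deg x = n <;> simp [hx]
        rw [Set.mem_ofPred_eq, h]
        exact V.add_mem hv hw
      smul_mem' := by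
        intro c v hv
        have h := hwt _ hv n c
        have h' : (fun x : X => if M.deg x = n then (c • v) x else 0) =
            fun x => if M.deg x = n then c * (if M.deg x = n then v x else 0) else 0 := by
          funext x
          split_ifs <;> simp
        rw [Set.mem_ofPred_eq, h']
        exact h }
  have hWmem : ∀ n v, v ∈ W n ↔ (fun x => if M.deg x = n then v x else 0) ∈ V :=
    fun n v => Iff.rfl
  by_contra hne
  have hW : ∃ n, W n ≠ ⊤ := by
    by_contra hcon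
    push Not at hcon
    apply hne
    rw [eq_top_iff]
    intro v _
    have h1 : v = ∑ n ∈ Finset.univ.image M.deg, fun x => if M.deg x = n then v x else 0 := by
      funext x
      rw [Finset.sum_apply, Finset.sum_ite_eq, if_pos]
      exact Finset.mem_image_of_mem _ (Finset.mem_univ x)
    rw [h1]
    refine AddSubgroup.sum_mem _ fun n _ => ?_
    rw [← hWmem, hcon n]
    trivial
  obtain ⟨n, hn⟩ := hW
  obtain ⟨φ, hφ0, hφ⟩ := Submodule.exists_le_ker_of_lt_top (W n) (lt_top_iff_ne_top.2 hn)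
  set γ : X → ℂ := fun x => φ (Pi.single x 1) with hγ
  have hφγ : ∀ v, φ v = ∑ x, γ x * v x := by
    intro v
    rw [LinearMap.pi_apply_eq_sum_univ φ v]
    refine Finset.sum_congr rfl fun x _ => ?_
    rw [smul_eq_mul, mul_comm, hγ]
    congr 2
    funext y
    rw [Pi.single_apply]
    simp only [eq_comm]
  have hγn : ∀ x, M.deg x ≠ n → γ x = 0 := by
    intro x hx
    have h1 : (Pi.single x 1 : X → ℂ) ∈ W n := by
      rw [hWmem]
      have h2 : (fun y => if M.deg y = n then (Pi.single x 1 : X → ℂ) y else 0) = 0 := by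
        funext y
        by_cases hy : y = x
        · rw [hy, if_neg hx, Pi.zero_apply]
        · rw [Pi.single_eq_of_ne hy, ite_self, Pi.zero_apply]
      rw [h2]
      exact V.zero_mem
    exact LinearMap.mem_ker.1 (hφ h1)
  have hγ0 : ∃ x, γ x ≠ 0 := by
    by_contra hcon
    push Not at hcon
    apply hφ0
    refine LinearMap.ext fun v => ?_
    rw [hφγ, LinearMap.zero_apply]
    exact Finset.sum_eq_zero fun x _ => by rw [hcon x, zero_mul]
  obtain ⟨x0, hx0⟩ := hγ0
  have hn0 : 0 < n := by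
    have h1 : M.deg x0 = n := by
      by_contra h
      exact hx0 (hγn x0 h)
    rw [← h1]
    exact M.deg_pos x0
  have hVker : ∀ v ∈ V, ∑ x, γ x * v x = 0 := by
    intro v hv
    rw [← hφγ]
    apply LinearMap.mem_ker.1
    apply hφ
    rw [hWmem]
    have := hwt v hv n 1
    simpa using this
  -- the cocycle
  let c : (Matrix m m ℂ)ˣ → ℂ := fun h => ∑ x, γ x * (h : Matrix m m ℂ) M.o (M.s x)
  have hcmul : ∀ g ∈ H, ∀ h ∈ H, c (g * h) = (h : Matrix m m ℂ) M.t M.t ^ n * c g + c h := by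
    intro g hg h hh
    change ∑ x, _ = _ * ∑ x, _ + ∑ x, _
    rw [Finset.mul_sum, ← Finset.sum_add_distrib]
    refine Finset.sum_congr rfl fun x _ => ?_
    rw [mul_os (hH hg) (hH hh)]
    by_cases hx : M.deg x = n
    · rw [hx]
      ring
    · rw [hγn x hx]
      ring
  have hc1 : ∀ h ∈ H, (h : Matrix m m ℂ) M.t M.t = 1 → c h = 0 := by
    intro h hh hh1
    exact hVker _ ⟨h, hh, hh1, fun x => rfl⟩
  have hccomm : ∀ g ∈ H, ∀ h ∈ H, c (g * h) = c (h * g) := by
    intro g hg h hh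
    have h1 : (g * h) * (h * g)⁻¹ ∈ H :=
      H.mul_mem (H.mul_mem hg hh) (H.inv_mem (H.mul_mem hh hg))
    have h2 : (((g * h) * (h * g)⁻¹ : (Matrix m m ℂ)ˣ) : Matrix m m ℂ) M.t M.t = 1 := by
      rw [mul_tt (hH (H.mul_mem hg hh)) (hH (H.inv_mem (H.mul_mem hh hg))),
        tt_inv (hH (H.mul_mem hh hg)), mul_tt (hH hg) (hH hh), mul_tt (hH hh) (hH hg)]
      have h3 := tt_ne (hH hg)
      have h4 := tt_ne (hH hh)
      field_simp
    have h3 := hcmul _ h1 _ (H.mul_mem hh hg)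
    rw [inv_mul_cancel_right, hc1 _ h1 h2, mul_zero, zero_add] at h3
    exact h3
  have h3 : Units.mk0 (2 : ℂ) two_ne_zero ∈ Img M H hH := by
    rw [himg]
    trivial
  obtain ⟨k, hk, hk1⟩ := h3
  rw [Units.val_mk0] at hk1
  have h2n : (2 : ℂ) ^ n - 1 ≠ 0 := by
    have h4 : (1 : ℕ) < 2 ^ n := Nat.one_lt_two_pow (by omega)
    have h5 : ((2 : ℂ) ^ n) ≠ 1 := by
      intro h
      have h6 : ((2 ^ n : ℕ) : ℂ) = ((1 : ℕ) : ℂ) := by
        push_cast
        exact h
      have := Nat.cast_injective h6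
      omega
    exact sub_ne_zero.2 h5
  set a : ℂ := c k / (2 ^ n - 1) with ha
  have hca : ∀ h ∈ H, c h = a * ((h : Matrix m m ℂ) M.t M.t ^ n - 1) := by
    intro h hh
    have h4 := hccomm h hh k hk
    rw [hcmul h hh k hk, hcmul k hk h hh, hk1] at h4
    rw [ha, div_mul_eq_mul_div, eq_div_iff h2n]
    linear_combination h4
  set l : ℂ := (p : Matrix m m ℂ) M.t M.t with hl
  set z : X → ℂ := fun x => (p : Matrix m m ℂ) M.o (M.s x) with hz
  have hl0 : l ≠ 0 := tt_ne hp
  have hrel : ∀ σ : ℂ ≃+* ℂ, a + -((∑ x, γ x * z x + a) / l ^ n) * σ l ^ n +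
      ∑ x, γ x * σ (z x) = 0 := by
    intro σ
    have h4 := hca _ (hσ σ)
    rw [hs_tt hH hp hσ] at h4
    have h5 : c (p⁻¹ * sg σ p) = ∑ x, γ x * σ (z x) - (σ l / l) ^ n * ∑ x, γ x * z x := by
      change ∑ x, _ = _
      rw [Finset.mul_sum, ← Finset.sum_sub_distrib]
      refine Finset.sum_congr rfl fun x _ => ?_
      rw [hs_os hH hp hσ]
      by_cases hx : M.deg x = n
      · rw [hx]
        ring
      · rw [hγn x hx]
        ring
    rw [h5] at h4
    have h6 : σ l ^ n = (σ l / l) ^ n * l ^ n := by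
      rw [div_pow, div_mul_cancel₀ _ (pow_ne_zero n hl0)]
    have h7 : ((∑ x, γ x * z x + a) / l ^ n) * σ l ^ n =
        (σ l / l) ^ n * (∑ x, γ x * z x + a) := by
      rw [h6]
      field_simp
    linear_combination h4 - h7
  -- the space of relations
  let E : Submodule ℂ (Option (Option X) → ℂ) :=
    { carrier := {v | (∀ x, M.deg x ≠ n → v (some (some x)) = 0) ∧
        ∀ σ : ℂ ≃+* ℂ, v none + v (some none) * σ l ^ n +
          ∑ x, v (some (some x)) * σ (z x) = 0}
      zero_mem' := by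
        refine ⟨fun x _ => rfl, fun σ => ?_⟩
        simp
      add_mem' := by
        rintro v w ⟨hv1, hv2⟩ ⟨hw1, hw2⟩
        refine ⟨fun x hx => ?_, fun σ => ?_⟩
        · rw [Pi.add_apply, hv1 x hx, hw1 x hx, add_zero]
        · have h4 := hv2 σ
          have h5 := hw2 σ
          simp only [Pi.add_apply, add_mul, Finset.sum_add_distrib]
          linear_combination h4 + h5
      smul_mem' := by
        rintro e v ⟨hv1, hv2⟩
        refine ⟨fun x hx => ?_, fun σ => ?_⟩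
        · rw [Pi.smul_apply, hv1 x hx, smul_zero]
        · have h4 := hv2 σ
          simp only [Pi.smul_apply, smul_eq_mul, mul_assoc, ← Finset.mul_sum]
          linear_combination e * h4 }
  have hEσ : ∀ (τ : ℂ ≃+* ℂ), ∀ v ∈ E, (fun i => τ (v i)) ∈ E := by
    rintro τ v ⟨hv1, hv2⟩
    refine ⟨fun x hx => ?_, fun σ => ?_⟩
    · change τ (v (some (some x))) = 0
      rw [hv1 x hx, map_zero]
    · have h4 := congrArg τ (hv2 (σ.trans τ.symm))
      rw [map_add, map_add, map_mul, map_pow, map_sum, map_zero] at h4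
      simp only [map_mul, RingEquiv.trans_apply, RingEquiv.apply_symm_apply] at h4
      exact h4
  have hspan := Pool.Agent.W437.HD.span_rational E hEσ
  have hEbot : E = ⊥ := by
    rw [hspan, Submodule.span_eq_bot]
    rintro w ⟨⟨hw1, hw2⟩, u, rfl⟩
    have h4 := hw2 (RingEquiv.refl ℂ)
    simp only [RingEquiv.refl_apply] at h4
    have h5 : (fun x => u (some (some x))) = 0 := by
      refine hind n _ (-u none) (-u (some none)) (fun x hx => ?_) ?_
      · by_contra h
        apply hx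
        have h' : ((u (some (some x)) : ℚ) : ℂ) = 0 := hw1 x h
        exact_mod_cast h'
      · push_cast
        linear_combination h4
    have h6 : ∀ x, u (some (some x)) = 0 := fun x => congrFun h5 x
    have h7 : (u none : ℂ) + u (some none) * l ^ n = 0 := by
      have h8 : ∑ x, (u (some (some x)) : ℂ) * z x = 0 :=
        Finset.sum_eq_zero fun x _ => by rw [h6 x, Rat.cast_zero, zero_mul]
      rw [h8, add_zero] at h4
      exact h4
    obtain ⟨h8, h9⟩ := trans_aux htr hn0 h7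
    funext i
    rcases i with _ | _ | x
    · simp [h8]
    · simp [h9]
    · simp [h6 x]
  let e0 : Option (Option X) → ℂ := fun i =>
    Option.elim i a fun j => Option.elim j (-((∑ x, γ x * z x + a) / l ^ n)) γ
  have he0 : e0 ∈ E := ⟨fun x hx => hγn x hx, fun σ => hrel σ⟩
  rw [hEbot, Submodule.mem_bot] at he0
  exact hx0 (congrFun he0 (some (some x0)))

theorem gp_le_of (htr : Transcendental ℚ ((p : Matrix m m ℂ) M.t M.t))
    (hind : Independent M (p : Matrix m m ℂ)) : M.gp ≤ H :=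
  gp_le hH (img_top hH hp hσ htr) (vec_top hH hp hσ htr hind)

end

/-- If the periods are independent, every torsor over `ℚ` through `p` contains the torsor of
motivic periods. -/
theorem noSub {M : Motive m X} {p : (Matrix m m ℂ)ˣ} (hp : p ∈ M.gp)
    (htr : Transcendental ℚ ((p : Matrix m m ℂ) M.t M.t))
    (hind : Independent M (p : Matrix m m ℂ)) : NoSubtorsor M p := by
  rintro T ⟨⟨P, hP⟩, G, t, hT⟩ hpT
  have hpG : t⁻¹ * p ∈ G := by
    rw [hT] at hpT
    exact hpT
  have hσT : ∀ σ : ℂ ≃+* ℂ, sg σ p ∈ T := by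
    intro σ
    rw [hP] at hpT ⊢
    intro f hf
    rw [aeval_sg, hpT f hf, map_zero]
  have hσ : ∀ σ : ℂ ≃+* ℂ, p⁻¹ * sg σ p ∈ G ⊓ M.gp := by
    intro σ
    refine Subgroup.mem_inf.2 ⟨?_, Subgroup.mul_mem _ (Subgroup.inv_mem _ hp) (sg_mem M σ hp)⟩
    have h1 := hσT σ
    rw [hT] at h1
    have h2 := G.mul_mem (G.inv_mem hpG) h1
    have h3 : (t⁻¹ * p)⁻¹ * (t⁻¹ * sg σ p) = p⁻¹ * sg σ p := by group
    rwa [h3] at h2
  have hle := gp_le_of (inf_le_right : G ⊓ M.gp ≤ M.gp) hp hσ htr hind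
  intro g hg
  have h1 : p⁻¹ * g ∈ G ⊓ M.gp := hle (Subgroup.mul_mem _ (Subgroup.inv_mem _ hp) hg)
  rw [hT]
  have h2 := G.mul_mem hpG (Subgroup.mem_inf.1 h1).1
  have h3 : (t⁻¹ * p) * (p⁻¹ * g) = t⁻¹ * g := by group
  rw [h3] at h2
  exact h2

end Pool.Agent.W516.MTZ
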