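import Mathlib

/-!
# Mixed Tate motives, their motivic Galois groups and the torsors of their periods
-/

set_option autoImplicit false

namespace Pool.Agent.W516.MTZ

open Matrix MvPolynomial

/-- The de Rham realization of a mixed Tate motive `M`, in a homogeneous basis with index set `m`:
`wt i` is the degree of the basis vector `i` (the degree of the motive `ℚ(-n)` is `n`), and for each
generator `x ∈ X`, of degree `deg x`, of the Lie algebra of the unipotent radical of the motivic
Galois group, `op x` is the matrix of its action, which lowers the degree by `deg x`.  The motive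
`M` contains the motive `ℚ(-1)`, spanned by the basis vector `t`, and for each `x` an extension of
`ℚ(-deg x)` by `ℚ(0)`, spanned by the basis vectors `s x` and `o`, in which `x` maps `s x` to
`o` and the other generators act by zero. -/
structure Motive (m X : Type) [DecidableEq m] [DecidableEq X] where
  wt : m → ℕ
  deg : X → ℕ
  op : X → Matrix m m ℚ
  o : m
  t : m
  s : X → m
  deg_pos : ∀ x, 0 < deg x
  op_deg : ∀ x i j, op x i j ≠ 0 → wt j = wt i + deg x
  wt_o : wt o = 0
  wt_t : wt t = 1
  wt_s : ∀ x, wt (s x) = deg x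
  op_o : ∀ x i, op x i o = 0
  op_t : ∀ x i, op x i t = 0
  op_s : ∀ x y i, op x i (s y) = if i = o ∧ x = y then 1 else 0

variable {m X : Type} [Fintype m] [DecidableEq m] [Fintype X] [DecidableEq X]

/-- The motivic Galois group of `M` (its complex points): the group of matrices which is generated
by the diagonal matrices `μ ^ wt`, `μ ≠ 0`, and by the matrices `exp (c N)` with `c ∈ ℂ`, where
`N = op x` is the action of a generator. -/
noncomputable def Motive.gp (M : Motive m X) : Subgroup (Matrix m m ℂ)ˣ :=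
  Subgroup.closure
    ({g : (Matrix m m ℂ)ˣ | ∃ μ : ℂ, μ ≠ 0 ∧ (g : Matrix m m ℂ) = diagonal fun i => μ ^ M.wt i} ∪
      {g : (Matrix m m ℂ)ˣ | ∃ (c : ℂ) (x : X),
        (g : Matrix m m ℂ) = IsNilpotent.exp (c • (M.op x).map (algebraMap ℚ ℂ))})

/-- The entries of a matrix. -/
def crd (g : Matrix m m ℂ) : m × m → ℂ := fun k => g k.1 k.2

/-- The torsors over `ℚ`: the sets of invertible matrices which are defined by polynomials with
rational coefficients and are of the form `t G` with a subgroup `G`. -/
def IsTorsor (T : Set (Matrix m m ℂ)ˣ) : Prop :=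
  (∃ P : Set (MvPolynomial (m × m) ℚ),
    T = {g : (Matrix m m ℂ)ˣ | ∀ f ∈ P, aeval (crd (g : Matrix m m ℂ)) f = 0}) ∧
  ∃ (G : Subgroup (Matrix m m ℂ)ˣ) (t : (Matrix m m ℂ)ˣ), T = {g : (Matrix m m ℂ)ˣ | t⁻¹ * g ∈ G}

/-- The Zariski closure over `ℚ` of an invertible matrix. -/
def clos (p : (Matrix m m ℂ)ˣ) : Set (Matrix m m ℂ)ˣ :=
  {g : (Matrix m m ℂ)ˣ | ∀ f : MvPolynomial (m × m) ℚ,
    aeval (crd (p : Matrix m m ℂ)) f = 0 → aeval (crd (g : Matrix m m ℂ)) f = 0}

/-- No torsor over `ℚ` which contains the comparison isomorphism `p` is smaller than the torsor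
of motivic periods. -/
def NoSubtorsor (M : Motive m X) (p : (Matrix m m ℂ)ˣ) : Prop :=
  ∀ T : Set (Matrix m m ℂ)ˣ, IsTorsor T → p ∈ T → (M.gp : Set (Matrix m m ℂ)ˣ) ⊆ T

/-- The period conjecture for `M`: all polynomial relations with rational coefficients between the
entries of `p` hold on the torsor of motivic periods. -/
def PeriodConjecture (M : Motive m X) (p : (Matrix m m ℂ)ˣ) : Prop :=
  (M.gp : Set (Matrix m m ℂ)ˣ) ⊆ clos p

/-- For each `n` the periods `p_(o, s x)` of the extensions of `ℚ(-n)` by `ℚ(0)`, `deg x = n`, are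
linearly independent over `ℚ` modulo `ℚ + ℚ λ ^ n`, where `λ = p_(t, t)` is the period of
`ℚ(-1)`. -/
def Independent (M : Motive m X) (p : Matrix m m ℂ) : Prop :=
  ∀ (n : ℕ) (c : X → ℚ) (a b : ℚ), (∀ x, c x ≠ 0 → M.deg x = n) →
    ∑ x, (c x : ℂ) * p M.o (M.s x) = a + b * p M.t M.t ^ n → c = 0

end Pool.Agent.W516.MTZ
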