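import Pool.Agent.W516.MTZ.Low
import Pool.Agent.W804.MTZ.FIT

/-!
# Automorphisms of the field of complex numbers and the abelianization of the unipotent part
-/

set_option autoImplicit false
set_option linter.unusedSectionVars false

namespace Pool.Agent.W516.MTZ

open Matrix MvPolynomial

variable {m X : Type} [Fintype m] [DecidableEq m] [Fintype X] [DecidableEq X]

/-- An automorphism applied to the entries of an invertible matrix. -/
noncomputable def sg (σ : ℂ ≃+* ℂ) : (Matrix m m ℂ)ˣ →* (Matrix m m ℂ)ˣ :=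
  Units.map ((σ : ℂ →+* ℂ).mapMatrix : Matrix m m ℂ →+* Matrix m m ℂ).toMonoidHom

theorem sg_val (σ : ℂ ≃+* ℂ) (g : (Matrix m m ℂ)ˣ) :
    ((sg σ g : (Matrix m m ℂ)ˣ) : Matrix m m ℂ) = (g : Matrix m m ℂ).map σ := rfl

theorem sg_apply (σ : ℂ ≃+* ℂ) (g : (Matrix m m ℂ)ˣ) (i j : m) :
    ((sg σ g : (Matrix m m ℂ)ˣ) : Matrix m m ℂ) i j = σ ((g : Matrix m m ℂ) i j) := rfl

theorem sg_mem (M : Motive m X) (σ : ℂ ≃+* ℂ) {g : (Matrix m m ℂ)ˣ} (hg : g ∈ M.gp) :
    sg σ g ∈ M.gp := by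
  have h : M.gp ≤ M.gp.comap (sg σ) := by
    conv_lhs => rw [Motive.gp]
    rw [Subgroup.closure_le]
    rintro g (⟨μ, hμ, hg⟩ | ⟨c, x, hg⟩)
    · refine Subgroup.subset_closure (Or.inl ⟨σ μ, ?_, ?_⟩)
      · exact fun h => hμ ((map_eq_zero σ).1 h)
      · rw [sg_val, hg, diagonal_map (map_zero σ)]
        congr 1
        funext i
        exact map_pow σ μ _
    · refine Subgroup.subset_closure (Or.inr ⟨σ c, x, ?_⟩)
      rw [sg_val, hg]
      have h1 := IsNilpotent.map_exp (nilp (low_smul_opc M c x))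
        ((σ : ℂ →+* ℂ).mapMatrix : Matrix m m ℂ →+* Matrix m m ℂ)
      change ((σ : ℂ →+* ℂ).mapMatrix : Matrix m m ℂ →+* Matrix m m ℂ)
        (IsNilpotent.exp (c • opc M x)) = _
      rw [h1]
      congr 1
      ext i j
      simp [opc]
  exact h hg

theorem aeval_sg (σ : ℂ ≃+* ℂ) (g : (Matrix m m ℂ)ˣ) (f : MvPolynomial (m × m) ℚ) :
    aeval (crd ((sg σ g : (Matrix m m ℂ)ˣ) : Matrix m m ℂ)) f =
      σ (aeval (crd (g : Matrix m m ℂ)) f) := by
  rw [aeval_def, aeval_def]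
  have h := MvPolynomial.eval₂_comp_left (σ : ℂ →+* ℂ) (algebraMap ℚ ℂ)
    (crd (g : Matrix m m ℂ)) f
  have h2 : (σ : ℂ →+* ℂ).comp (algebraMap ℚ ℂ) = algebraMap ℚ ℂ := Subsingleton.elim _ _
  rw [h2] at h
  exact h.symm

theorem o_ne_s (M : Motive m X) (x : X) : M.o ≠ M.s x := by
  intro h
  have h1 := M.wt_o
  have h2 := M.wt_s x
  have h3 := M.deg_pos x
  rw [h] at h1
  omega

theorem one_tt (M : Motive m X) : (1 : Matrix m m ℂ) M.t M.t = 1 := Matrix.one_apply_eq _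

theorem one_os (M : Motive m X) (x : X) : (1 : Matrix m m ℂ) M.o (M.s x) = 0 :=
  Matrix.one_apply_ne (o_ne_s M x)

theorem mul_tt {M : Motive m X} {g h : (Matrix m m ℂ)ˣ} (hg : g ∈ M.gp) (hh : h ∈ M.gp) :
    ((g * h : (Matrix m m ℂ)ˣ) : Matrix m m ℂ) M.t M.t =
      (g : Matrix m m ℂ) M.t M.t * (h : Matrix m m ℂ) M.t M.t := by
  obtain ⟨h1, h2, -⟩ := Pool.Agent.W804.MTZ.T_FIT m X M
  rw [Units.val_mul]
  exact (h2 _ _ (h1 g hg) (h1 h hh)).2.1

theorem mul_os {M : Motive m X} {g h : (Matrix m m ℂ)ˣ} (hg : g ∈ M.gp) (hh : h ∈ M.gp) (x : X) :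
    ((g * h : (Matrix m m ℂ)ˣ) : Matrix m m ℂ) M.o (M.s x) =
      (h : Matrix m m ℂ) M.t M.t ^ M.deg x * (g : Matrix m m ℂ) M.o (M.s x) +
        (h : Matrix m m ℂ) M.o (M.s x) := by
  obtain ⟨h1, h2, -⟩ := Pool.Agent.W804.MTZ.T_FIT m X M
  rw [Units.val_mul]
  exact (h2 _ _ (h1 g hg) (h1 h hh)).2.2 x

theorem tt_mul_inv {M : Motive m X} {g : (Matrix m m ℂ)ˣ} (hg : g ∈ M.gp) :
    (g : Matrix m m ℂ) M.t M.t * ((g⁻¹ : (Matrix m m ℂ)ˣ) : Matrix m m ℂ) M.t M.t = 1 := by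
  rw [← mul_tt hg (Subgroup.inv_mem _ hg), mul_inv_cancel, Units.val_one, one_tt]

theorem tt_ne {M : Motive m X} {g : (Matrix m m ℂ)ˣ} (hg : g ∈ M.gp) :
    (g : Matrix m m ℂ) M.t M.t ≠ 0 := left_ne_zero_of_mul_eq_one (tt_mul_inv hg)

theorem tt_inv {M : Motive m X} {g : (Matrix m m ℂ)ˣ} (hg : g ∈ M.gp) :
    ((g⁻¹ : (Matrix m m ℂ)ˣ) : Matrix m m ℂ) M.t M.t = ((g : Matrix m m ℂ) M.t M.t)⁻¹ :=
  eq_inv_of_mul_eq_one_right (tt_mul_inv hg)

theorem U0_tt {M : Motive m X} {u : (Matrix m m ℂ)ˣ} (hu : u ∈ U0 M) :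
    (u : Matrix m m ℂ) M.t M.t = 1 := by
  have h := (U0_low M hu).1 M.t M.t
  by_contra hne
  have h2 : ((u : Matrix m m ℂ) - 1) M.t M.t ≠ 0 := by
    rw [Matrix.sub_apply, one_tt]
    exact sub_ne_zero.2 hne
  have := h h2
  omega

theorem mem_U0 {M : Motive m X} {g : (Matrix m m ℂ)ˣ} (hg : g ∈ M.gp)
    (h1 : (g : Matrix m m ℂ) M.t M.t = 1) : g ∈ U0 M := by
  obtain ⟨μ, u, hu, rfl⟩ := gp_decomp M hg
  rw [mul_tt (dg_mem M μ) (U0_le M hu), U0_tt hu, mul_one, dg_val, diagonal_apply_eq, M.wt_t,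
    pow_one] at h1
  have h2 : μ = 1 := Units.ext h1
  rw [h2, dg_one, one_mul]
  exact hu

theorem ex_os (M : Motive m X) (c : ℂ) (x y : X) :
    (ex M c x : Matrix m m ℂ) M.o (M.s y) = if x = y then c else 0 := by
  obtain ⟨-, -, -, h4, -⟩ := Pool.Agent.W804.MTZ.T_FIT m X M
  exact h4 c x y

/-- The class of `exp (c N)` in the abelianization. -/
noncomputable def cls (M : Motive m X) (x : X) (c : ℂ) : Abelianization (U0 M) :=
  Abelianization.of (⟨ex M c x, ex_mem M c x⟩ : U0 M)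

theorem cls_add (M : Motive m X) (x : X) (c d : ℂ) : cls M x (c + d) = cls M x c * cls M x d := by
  rw [cls, cls, cls, ← map_mul]
  congr 1
  exact Subtype.ext (ex_add M c d x)

theorem cls_zero (M : Motive m X) (x : X) : cls M x 0 = 1 := by
  rw [cls, ← map_one Abelianization.of]
  congr 1
  exact Subtype.ext (ex_zero M x)

/-- The product of the classes of `exp (c N)`. -/
noncomputable def Psi (M : Motive m X) (v : X → ℂ) : Abelianization (U0 M) :=
  ∏ x, cls M x (v x)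

theorem Psi_add (M : Motive m X) (v w : X → ℂ) : Psi M (v + w) = Psi M v * Psi M w := by
  rw [Psi, Psi, Psi, ← Finset.prod_mul_distrib]
  exact Finset.prod_congr rfl fun x _ => cls_add M x _ _

theorem Psi_zero (M : Motive m X) : Psi M 0 = 1 :=
  Finset.prod_eq_one fun x _ => cls_zero M x

theorem of_eq_Psi (M : Motive m X) {u : (Matrix m m ℂ)ˣ} (hu : u ∈ U0 M) :
    Abelianization.of (⟨u, hu⟩ : U0 M) = Psi M fun x => (u : Matrix m m ℂ) M.o (M.s x) := by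
  induction hu using Subgroup.closure_induction with
  | mem g hg =>
    obtain ⟨c, x, rfl⟩ := hg
    rw [Psi, Finset.prod_eq_single x]
    · rw [ex_os, if_pos rfl]
      rfl
    · intro y _ hy
      rw [ex_os, if_neg hy.symm, cls_zero]
    · intro h
      exact absurd (Finset.mem_univ _) h
  | one =>
    have h1 : (fun x => ((1 : (Matrix m m ℂ)ˣ) : Matrix m m ℂ) M.o (M.s x)) = 0 := by
      funext x
      rw [Units.val_one, one_os, Pi.zero_apply]
    rw [h1, Psi_zero]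
    exact map_one Abelianization.of
  | mul g h hg hh ihg ihh =>
    have h1 : (fun x => ((g * h : (Matrix m m ℂ)ˣ) : Matrix m m ℂ) M.o (M.s x)) =
        (fun x => (g : Matrix m m ℂ) M.o (M.s x)) + fun x => (h : Matrix m m ℂ) M.o (M.s x) := by
      funext x
      rw [mul_os (U0_le M hg) (U0_le M hh), U0_tt hh, one_pow, one_mul, Pi.add_apply]
    rw [h1, Psi_add, ← ihg, ← ihh, ← map_mul]
    rfl
  | inv g hg ih =>
    have h1 : (fun x => ((g⁻¹ : (Matrix m m ℂ)ˣ) : Matrix m m ℂ) M.o (M.s x)) +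
        (fun x => (g : Matrix m m ℂ) M.o (M.s x)) = 0 := by
      funext x
      have h2 := mul_os (M := M) (U0_le M (Subgroup.inv_mem _ hg)) (U0_le M hg) x
      rw [inv_mul_cancel, Units.val_one, one_os, U0_tt hg, one_pow, one_mul] at h2
      rw [Pi.add_apply, Pi.zero_apply, ← h2]
    have h3 := Psi_add M (fun x => ((g⁻¹ : (Matrix m m ℂ)ˣ) : Matrix m m ℂ) M.o (M.s x))
      (fun x => (g : Matrix m m ℂ) M.o (M.s x))
    rw [h1, Psi_zero, ← ih] at h3
    refine Eq.trans ?_ (eq_inv_of_mul_eq_one_left h3.symm).symm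
    rw [← map_inv]
    rfl

theorem mem_commutator (M : Motive m X) (u : U0 M)
    (h : ∀ x, ((u : (Matrix m m ℂ)ˣ) : Matrix m m ℂ) M.o (M.s x) = 0) :
    u ∈ commutator (U0 M) := by
  have h1 := of_eq_Psi M u.2
  have h2 : (fun x => ((u : (Matrix m m ℂ)ˣ) : Matrix m m ℂ) M.o (M.s x)) = 0 := funext h
  rw [h2, Psi_zero] at h1
  rw [← Abelianization.ker_of, MonoidHom.mem_ker]
  exact h1

end Pool.Agent.W516.MTZ
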